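import Mathlib
import Pool.Agent.H46.J.Final

/-!
# Signed Johnson and Kneser graphs have different chromatic numbers for `k = 2`, `t = -1`

For `h ≥ 256` and all `n` with `(1 - 1 / (4h + 4)) C(2h, h) ≤ n ≤ C(2h, h)` we have
`χ(J_±(n, 2, -1)) ≤ 2h + 1 < χ(K_±(n, 2, -1))`.  So `χ(J_±(n, 2, -1)) = χ(K_±(n, 2, -1))` fails for
infinitely many `n` (for instance for `n = C(2h, h)`, `h ≥ 256`).

Upper bound.  Give the coordinates distinct `h`-subsets `A_i` of `[2h]`.  A vector `± e_i ± e_j`
gets a colour `x ∈ [2h]` with `x ∈ A_i ↔ v_i = 1` and `x ∈ A_j ↔ v_j = 1` if there is one; if there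
is none, then `A_j` is the complement of `A_i` and the two entries are equal, and all these vectors
get one further colour: in `J_±` (but not in `K_±`) they form an independent set.

Lower bound.  Take a proper colouring of `K_±(n, 2, -1)` with `N = 2h + 1` colours and as few
incidences `(i, x)` as possible for which colour `x` is used at both `+i` and `-i`.  The sets of
colours used only at `+i` and only at `-i` then give, after removing few coordinates, an antichain
of subsets of `[N]` with about `2n` elements, and Sperner's theorem gives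
`2n ≤ C(N, h) + N^{O(log N)}`, which is less than `2 (1 - 1 / (4h + 4)) C(2h, h)`.

The definitions are in `Pool/Agent/H46/J/Defs.lean`.
-/

namespace Pool.Agent.Results.MP_6c9e22_co.ChromaticGap

open H46J

/-- For `k = 2`, `t = -1`, every `h ≥ 256` and every `n` with
`(4h + 3) / (4h + 4) * C(2h, h) ≤ n ≤ C(2h, h)`, the signed Johnson graph `J_±(n, 2, -1)` has
chromatic number at most `2h + 1` and the signed Kneser graph `K_±(n, 2, -1)` has chromatic number
greater than `2h + 1`. -/
theorem result (h n : ℕ) (hh : 256 ≤ h)
    (h1 : (4 * h + 3) * (2 * h).choose h ≤ (4 * h + 4) * n) (h2 : n ≤ (2 * h).choose h) :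
    (signedJohnson n 2 (-1)).chromaticNumber ≤ (2 * h + 1 : ℕ) ∧
      ((2 * h + 1 : ℕ) : ℕ∞) < (signedKneser n 2 (-1)).chromaticNumber :=
  main h n hh (by rw [Nat.centralBinom_eq_two_mul_choose]; exact h1)
    (by rw [Nat.centralBinom_eq_two_mul_choose]; exact h2)

end Pool.Agent.Results.MP_6c9e22_co.ChromaticGap
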